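import Mathlib

/-!
# MP_99322d, topology: the entropy of a compact forward invariant set is carried by its core

Author: helper81.  `f` has the continuous inverse `g`.
-/

set_option autoImplicit false

namespace Pool.Agent.Work.MP_99322d_an.Top

open Dynamics Set Function UniformSpace Filter ExpGrowth
open scoped SetRel Uniformity Topology

section general

variable {X : Type*} {f g : X → X}

/-- On an invariant set a dynamical cover for `f` gives one for the inverse. -/
theorem cover_inv (hgf : LeftInverse g f) (hfg : RightInverse g f) {K : Set X}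
    (hK : MapsTo g K K) {U : SetRel X X} {n : ℕ} {s : Set X} (h : IsDynCoverOf f K U n s) :
    IsDynCoverOf g K U n (f^[n - 1] '' s) := by
  intro y hy
  have hy' : g^[n - 1] y ∈ K := hK.iterate (n - 1) hy
  obtain ⟨z, hz, hxz⟩ := h hy'
  refine ⟨f^[n - 1] z, mem_image_of_mem _ hz, ?_⟩
  have hxz' := mem_dynEntourage.1 hxz
  refine mem_dynEntourage.2 fun k hk => ?_
  have h1 : g^[k] (f^[n - 1] z) = f^[n - 1 - k] z := by
    have h2 : n - 1 = k + (n - 1 - k) := by omega
    conv_lhs => rw [h2, iterate_add_apply]
    exact (hgf.iterate k) _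
  have h3 : g^[k] y = f^[n - 1 - k] (g^[n - 1] y) := by
    have h2 : n - 1 = (n - 1 - k) + k := by omega
    conv_rhs => rw [h2, iterate_add_apply]
    have h4 : n - 1 - k + k - k = n - 1 - k := by omega
    rw [h4]
    exact ((hfg.iterate (n - 1 - k)) _).symm
  rw [h1, h3]
  exact hxz' (n - 1 - k) (by omega)

theorem coverMincard_inv (hgf : LeftInverse g f) (hfg : RightInverse g f) {K : Set X}
    (hK : MapsTo g K K) (U : SetRel X X) (n : ℕ) :
    coverMincard g K U n ≤ coverMincard f K U n := by
  classical
  refine le_iInf₂ fun s hs => ?_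
  have h1 := cover_inv hgf hfg hK hs
  rw [← Finset.coe_image] at h1
  exact h1.coverMincard_le_card.trans (WithTop.coe_le_coe.2 Finset.card_image_le)

theorem coverEntropy_inv [UniformSpace X] (hgf : LeftInverse g f) (hfg : RightInverse g f)
    {K : Set X} (hK : MapsTo g K K) : coverEntropy g K ≤ coverEntropy f K :=
  iSup₂_mono fun U _ => expGrowthSup_monotone fun n =>
    ENat.toENNReal_mono (coverMincard_inv hgf hfg hK U n)

/-- Covers of `K` from a cover of `K` for a short time and a cover of the image. -/
theorem cover_two {K : Set X} {U : SetRel X X} [U.IsSymm] {m n : ℕ} {s t : Finset X}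
    (hs : IsDynCoverOf f K U m s) (ht : IsDynCoverOf f (f^[m] '' K) U n t) :
    ∃ r : Finset X, IsDynCoverOf f K (U ○ U) n r ∧ r.card ≤ s.card * t.card := by
  classical
  rcases K.eq_empty_or_nonempty with rfl | ⟨x0, hx0⟩
  · exact ⟨∅, by simp⟩
  let P : X × X → X → Prop := fun cz x => x ∈ K ∧ (x, cz.1) ∈ dynEntourage f U m ∧
    (f^[m] x, cz.2) ∈ dynEntourage f U n
  let F : X × X → X := fun cz => if h : ∃ x, P cz x then h.choose else x0
  refine ⟨(s ×ˢ t).image F, ?_, ?_⟩
  · intro x hx
    obtain ⟨c, hc, hxc⟩ := hs hx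
    obtain ⟨z, hz, hxz⟩ := ht (mem_image_of_mem _ hx)
    have hP : ∃ y, P (c, z) y := ⟨x, hx, hxc, hxz⟩
    have hF : P (c, z) (F (c, z)) := by
      simp only [F, dif_pos hP]
      exact hP.choose_spec
    refine ⟨F (c, z), ?_, ?_⟩
    · rw [Finset.coe_image]
      exact mem_image_of_mem _ (Finset.mem_product.2 ⟨hc, hz⟩)
    · refine mem_dynEntourage.2 fun k hk => ?_
      by_cases hkm : k < m
      · have h1 := mem_dynEntourage.1 hxc k hkm
        have h2 := mem_dynEntourage.1 hF.2.1 k hkm
        exact ⟨f^[k] c, h1, U.symm h2⟩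
      · have h1 := mem_dynEntourage.1 hxz (k - m) (by omega)
        have h2 := mem_dynEntourage.1 hF.2.2 (k - m) (by omega)
        have h3 : ∀ y, f^[k] y = f^[k - m] (f^[m] y) := by
          intro y
          rw [← iterate_add_apply]
          congr 2
          omega
        rw [h3, h3]
        exact ⟨f^[k - m] z, h1, U.symm h2⟩
  · exact Finset.card_image_le.trans (Finset.card_product s t).le

theorem entourage_le_image {K : Set X} {U : SetRel X X} [U.IsSymm] (m : ℕ)
    (hfin : coverMincard f K U m < ⊤) :
    coverEntropyEntourage f K (U ○ U) ≤ coverEntropyEntourage f (f^[m] '' K) U := by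
  obtain ⟨s, hs, hsc⟩ := (coverMincard_finite_iff f K U m).1 hfin
  refine expGrowthSup_le_of_eventually_le (b := (s.card : ENNReal)) (by simp) ?_
  refine Eventually.of_forall fun n => ?_
  rcases eq_top_or_lt_top (coverMincard f (f^[m] '' K) U n) with h | h
  · rw [h]
    rcases K.eq_empty_or_nonempty with rfl | hK
    · simp
    · have h1 : (s.card : ENNReal) ≠ 0 := by
        have h2 := hs.nonempty hK
        have h3 : s.card ≠ 0 := by
          rw [Finset.card_ne_zero]
          exact_mod_cast h2
        exact_mod_cast h3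
      rw [ENat.toENNReal_top, ENNReal.mul_top h1]
      exact le_top
  · obtain ⟨t, ht, htc⟩ := (coverMincard_finite_iff f (f^[m] '' K) U n).1 h
    obtain ⟨r, hr, hrc⟩ := cover_two hs ht
    have h1 : coverMincard f K (U ○ U) n ≤ ((s.card * t.card : ℕ) : ℕ∞) :=
      hr.coverMincard_le_card.trans (by exact_mod_cast hrc)
    have h2 := ENat.toENNReal_mono h1
    rw [← htc]
    simpa using h2

end general

section core

variable {X : Type*} [UniformSpace X] [T2Space X] {f g : X → X}

/-- The core: all backward iterates stay in `K`. -/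
def core (g : X → X) (K : Set X) : Set X := {x | ∀ n : ℕ, g^[n] x ∈ K}

theorem core_subset (g : X → X) (K : Set X) : core g K ⊆ K := fun _ hx => hx 0

theorem core_closed {K : Set X} (hK : IsClosed K) (hg : Continuous g) :
    IsClosed (core g K) := by
  have h1 : core g K = ⋂ n : ℕ, g^[n] ⁻¹' K := by
    ext x; simp [core]
  rw [h1]
  exact isClosed_iInter fun n => hK.preimage (hg.iterate n)

theorem core_compact {K : Set X} (hK : IsCompact K) (hg : Continuous g) :
    IsCompact (core g K) :=
  hK.of_isClosed_subset (core_closed hK.isClosed hg) (core_subset g K)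

theorem core_mapsTo_inv (K : Set X) : MapsTo g (core g K) (core g K) := by
  intro x hx n
  rw [← iterate_succ_apply]
  exact hx (n + 1)

theorem core_mapsTo (hgf : LeftInverse g f) {K : Set X} (hfK : MapsTo f K K) :
    MapsTo f (core g K) (core g K) := by
  intro x hx n
  cases n with
  | zero => exact hfK (hx 0)
  | succ n =>
    rw [iterate_succ_apply, hgf x]
    exact hx n

/-- Some image of `K` is inside a given open set around the core. -/
theorem exists_image_subset (hgf : LeftInverse g f) (hg : Continuous g) {K : Set X}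
    (hK : IsCompact K) (hfK : MapsTo f K K) {O : Set X} (hO : IsOpen O) (hcO : core g K ⊆ O) :
    ∃ m : ℕ, f^[m] '' K ⊆ O := by
  let V : ℕ → Set X := fun m => ⋂ n : ℕ, ⋂ _ : n ≤ m, g^[n] ⁻¹' K
  have hVc : ∀ m, IsClosed (V m) := fun m =>
    isClosed_iInter fun n => isClosed_iInter fun _ => hK.isClosed.preimage (hg.iterate n)
  have hVK : ∀ m, V m ⊆ K := fun m x hx => by
    have := mem_iInter₂.1 hx 0 (Nat.zero_le m)
    exact this
  have hVa : Antitone V := fun a b hab x hx =>
    mem_iInter₂.2 fun n hn => mem_iInter₂.1 hx n (hn.trans hab)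
  have hVi : ⋂ m, V m = core g K := by
    ext x
    simp only [V, mem_iInter, mem_preimage, core]
    exact ⟨fun h n => h n n le_rfl, fun h _ n _ => h n⟩
  obtain ⟨m, hm⟩ := exists_subset_nhds_of_isCompact' (V := V)
    (hVa.directed_ge) (fun m => hK.of_isClosed_subset (hVc m) (hVK m)) hVc (U := O) (by
      intro x hx
      rw [hVi] at hx
      exact hO.mem_nhds (hcO hx))
  refine ⟨m, ?_⟩
  rintro _ ⟨x, hx, rfl⟩
  refine hm (mem_iInter₂.2 fun n hn => ?_)
  have h1 : g^[n] (f^[m] x) = f^[m - n] x := by
    have h2 : m = n + (m - n) := by omega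
    conv_lhs => rw [h2, iterate_add_apply]
    exact (hgf.iterate n) _
  change g^[n] (f^[m] x) ∈ K
  rw [h1]
  exact hfK.iterate (m - n) hx

/-- The entropy of a compact forward invariant set is carried by the core. -/
theorem entropy_le_core (hgf : LeftInverse g f) (hf : Continuous f) (hg : Continuous g)
    {K : Set X} (hK : IsCompact K) (hfK : MapsTo f K K) :
    coverEntropy f K ≤ coverEntropy f (core g K) := by
  refine iSup₂_le fun W hW => ?_
  obtain ⟨V1, hV1, -, hV1s, hV1W⟩ := comp_open_symm_mem_uniformity_sets hW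
  obtain ⟨V, hV, hVo, hVs, hVV1⟩ := comp_open_symm_mem_uniformity_sets hV1
  have hVV : (V ○ V) ○ (V ○ V) ⊆ W := (SetRel.comp_subset_comp hVV1 hVV1).trans hV1W
  refine (coverEntropyEntourage_antitone f K hVV).trans ?_
  refine le_trans ?_ (coverEntropyEntourage_le_coverEntropy f (core g K) hV)
  refine le_trans ?_ (coverEntropyInfEntourage_le_coverEntropyEntourage f (core g K) V)
  refine le_liminf_of_le ?_ (eventually_atTop.2 ⟨1, fun N hN => ?_⟩)
  · isBoundedDefault
  -- a cover of the core of length `N`
  have hcc := core_compact hK hg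
  have hcm := core_mapsTo hgf hfK
  obtain ⟨s, hs, hsc⟩ := (coverMincard_finite_iff f (core g K) V N).1
    (coverMincard_finite_of_isCompact_invariant hcc hcm hV N)
  let O : Set X := ⋃ z ∈ s, {x | (x, z) ∈ dynEntourage f V N}
  have hO : IsOpen O := by
    refine isOpen_biUnion fun z _ => ?_
    have h1 : IsOpen (dynEntourage f V N) := isOpen.dynEntourage hf hVo N
    exact h1.preimage (by fun_prop : Continuous fun x : X => (x, z))
  have hcO : core g K ⊆ O := fun x hx => by
    obtain ⟨z, hz, hxz⟩ := hs hx
    exact mem_iUnion₂.2 ⟨z, hz, hxz⟩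
  obtain ⟨m, hm⟩ := exists_image_subset hgf hg hK hfK hO hcO
  have hcov : IsDynCoverOf f (f^[m] '' K) V N s := fun x hx => by
    obtain ⟨z, hz, hxz⟩ := mem_iUnion₂.1 (hm hx)
    exact ⟨z, hz, hxz⟩
  have : (V ○ V).IsSymm := inferInstance
  have hfin : coverMincard f K (V ○ V) m < ⊤ := by
    refine coverMincard_finite_of_isCompact_invariant hK hfK ?_ m
    exact mem_of_superset hV (subset_comp_self_of_mem_uniformity hV)
  refine (entourage_le_image m hfin).trans ?_
  have hinv : MapsTo f (f^[m] '' K) (f^[m] '' K) := by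
    rintro _ ⟨x, hx, rfl⟩
    refine ⟨f x, hfK hx, ?_⟩
    rw [← iterate_succ_apply, iterate_succ_apply']
  refine (coverEntropyEntourage_le_log_coverMincard_div hinv (n := N) (by omega)).trans ?_
  refine EReal.monotone_div_right_of_nonneg (Nat.cast_nonneg' N) (ENNReal.log_monotone ?_)
  refine ENat.toENNReal_mono ?_
  rw [← hsc]
  exact hcov.coverMincard_le_card

end core

end Pool.Agent.Work.MP_99322d_an.Top
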