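import Mathlib
import Pool.Agent.Work.MP_99322d_an.Defs
import Pool.Agent.Work.MP_99322d_an.Top.Core

/-!
# MP_99322d, topology: the symmetry `h (c / b ^ 2, 1 / b) = h (c, b)`

Author: helper81.
-/

set_option autoImplicit false

namespace Pool.Agent.Work.MP_99322d_an.Top

open Dynamics Set Function

/-- The inverse of the Henon map. -/
noncomputable def inv (c b : ℝ) (p : ℝ × ℝ) : ℝ × ℝ := (p.2, (p.2 ^ 2 + c - p.1) / b)

theorem continuous_inv (c b : ℝ) : Continuous (inv c b) := by
  unfold inv
  fun_prop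

theorem inv_hen {c b : ℝ} (hb : b ≠ 0) : LeftInverse (inv c b) (hen c b) := by
  rintro ⟨x, y⟩
  simp only [inv, hen]
  ext
  · rfl
  · simp only
    field_simp
    ring

theorem hen_inv {c b : ℝ} (hb : b ≠ 0) : RightInverse (inv c b) (hen c b) := by
  rintro ⟨x, y⟩
  simp only [inv, hen]
  ext
  · simp only
    field_simp
    ring
  · rfl

/-- The conjugation `(x, y) ↦ (y / b, x / b)` from the inverse map to the map with the parameters
`(c / b ^ 2, 1 / b)`. -/
noncomputable def cj (b : ℝ) (p : ℝ × ℝ) : ℝ × ℝ := (p.2 / b, p.1 / b)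

/-- Its inverse. -/
def jc (b : ℝ) (p : ℝ × ℝ) : ℝ × ℝ := (p.2 * b, p.1 * b)

theorem jc_cj {b : ℝ} (hb : b ≠ 0) (p : ℝ × ℝ) : jc b (cj b p) = p := by
  ext
  · simp only [jc, cj]; field_simp
  · simp only [jc, cj]; field_simp

theorem cj_jc {b : ℝ} (hb : b ≠ 0) (p : ℝ × ℝ) : cj b (jc b p) = p := by
  ext
  · simp only [jc, cj]; field_simp
  · simp only [jc, cj]; field_simp

theorem continuous_cj (b : ℝ) : Continuous (cj b) := by
  unfold cj
  fun_prop

theorem uniformContinuous_jc (b : ℝ) : UniformContinuous (jc b) := by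
  have h1 : UniformContinuous fun x : ℝ => x * b := by
    have h2 := (uniformContinuous_const_smul b : UniformContinuous fun x : ℝ => b • x)
    simpa [smul_eq_mul, mul_comm] using h2
  exact (h1.comp uniformContinuous_snd).prodMk (h1.comp uniformContinuous_fst)

theorem cj_semiconj {c b : ℝ} (hb : b ≠ 0) :
    Semiconj (cj b) (inv c b) (hen (c / b ^ 2) (1 / b)) := by
  rintro ⟨x, y⟩
  simp only [inv, hen, cj]
  ext
  · simp only
    field_simp
    ring
  · rfl

theorem jc_semiconj {c b : ℝ} (hb : b ≠ 0) :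
    Semiconj (jc b) (hen (c / b ^ 2) (1 / b)) (inv c b) := by
  intro p
  have h1 := cj_semiconj (c := c) hb (jc b p)
  rw [cj_jc hb] at h1
  rw [← h1, jc_cj hb]

theorem h_le_sym {c b : ℝ} (hb : b ≠ 0) : h c b ≤ h (c / b ^ 2) (1 / b) := by
  refine h_le c b _ fun K hK hfK => ?_
  have hf := continuous_hen c b
  have hg := continuous_inv c b
  have hgf := inv_hen (c := c) hb
  have hfg := hen_inv (c := c) hb
  have hC := core_compact hK hg
  have hCg : MapsTo (inv c b) (core (inv c b) K) (core (inv c b) K) := core_mapsTo_inv K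
  have hCf := core_mapsTo hgf hfK
  set C := core (inv c b) K with hCdef
  have h1 : coverEntropy (hen c b) K ≤ coverEntropy (hen c b) C :=
    entropy_le_core hgf hf hg hK hfK
  have h2 : coverEntropy (hen c b) C ≤ coverEntropy (inv c b) C :=
    coverEntropy_inv hfg hgf hCf
  have h3 : coverEntropy (inv c b) C ≤ coverEntropy (hen (c / b ^ 2) (1 / b)) (cj b '' C) := by
    have h4 := coverEntropy_image_le_of_uniformContinuous (jc_semiconj (c := c) hb)
      (uniformContinuous_jc b) (cj b '' C)
    have h5 : jc b '' (cj b '' C) = C := by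
      rw [← image_comp]
      have : jc b ∘ cj b = id := funext fun p => jc_cj hb p
      rw [this, image_id]
    rwa [h5] at h4
  refine (h1.trans (h2.trans h3)).trans (le_h _ _ _ (hC.image (continuous_cj b)) ?_)
  rintro _ ⟨p, hp, rfl⟩
  exact ⟨inv c b p, hCg hp, cj_semiconj hb p⟩

/-- **The symmetry of the entropy.** -/
theorem h_sym {c b : ℝ} (hb : b ≠ 0) : h (c / b ^ 2) (1 / b) = h c b := by
  refine le_antisymm ?_ (h_le_sym hb)
  have h1 := h_le_sym (c := c / b ^ 2) (b := 1 / b) (by positivity)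
  have h2 : c / b ^ 2 / (1 / b) ^ 2 = c := by field_simp
  have h3 : 1 / (1 / b) = b := by field_simp
  rwa [h2, h3] at h1

end Pool.Agent.Work.MP_99322d_an.Top
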