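import Mathlib
import Pool.Agent.Work.MP_99322d_an.Defs
import Pool.Agent.Work.MP_99322d_an.Top.Sym

/-!
# MP_99322d, topology: from the bounds of the entropy to a level set which is not connected

Author: helper81.
-/

set_option autoImplicit false

namespace Pool.Agent.Work.MP_99322d_an.Top

open Dynamics Set Function

/-- A set which avoids the boundary of a box in the coordinates `g1`, `g2` and has points inside and
outside is not preconnected. -/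
theorem not_preconnected_of_box {X : Type*} [TopologicalSpace X] {S : Set X} {g1 g2 : X → ℝ}
    (hg1 : Continuous g1) (hg2 : Continuous g2) {l1 r1 l2 r2 : ℝ} {p q : X} (hp : p ∈ S)
    (hq : q ∈ S) (hp1 : l1 < g1 p) (hp2 : g1 p < r1) (hp3 : l2 < g2 p) (hp4 : g2 p < r2)
    (hqo : g1 q < l1 ∨ r1 < g1 q ∨ g2 q < l2 ∨ r2 < g2 q)
    (hS : ∀ x ∈ S, l1 ≤ g1 x → g1 x ≤ r1 → l2 ≤ g2 x → g2 x ≤ r2 →
      g1 x ≠ l1 ∧ g1 x ≠ r1 ∧ g2 x ≠ l2 ∧ g2 x ≠ r2) : ¬ IsPreconnected S := by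
  intro hpre
  let U : Set X := {x | l1 < g1 x ∧ g1 x < r1 ∧ l2 < g2 x ∧ g2 x < r2}
  let V : Set X := {x | g1 x < l1 ∨ r1 < g1 x ∨ g2 x < l2 ∨ r2 < g2 x}
  have hU : IsOpen U :=
    (isOpen_lt continuous_const hg1).inter ((isOpen_lt hg1 continuous_const).inter
      ((isOpen_lt continuous_const hg2).inter (isOpen_lt hg2 continuous_const)))
  have hV : IsOpen V :=
    (isOpen_lt hg1 continuous_const).union ((isOpen_lt continuous_const hg1).union
      ((isOpen_lt hg2 continuous_const).union (isOpen_lt continuous_const hg2)))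
  have hSUV : S ⊆ U ∪ V := by
    intro x hx
    by_contra hn
    rw [mem_union, not_or] at hn
    obtain ⟨hnU, hnV⟩ := hn
    have hnV' : l1 ≤ g1 x ∧ g1 x ≤ r1 ∧ l2 ≤ g2 x ∧ g2 x ≤ r2 := by
      simp only [V, mem_setOf_eq, not_or, not_lt] at hnV
      exact hnV
    obtain ⟨h1, h2, h3, h4⟩ := hnV'
    obtain ⟨n1, n2, n3, n4⟩ := hS x hx h1 h2 h3 h4
    exact hnU ⟨lt_of_le_of_ne h1 (Ne.symm n1), lt_of_le_of_ne h2 n2,
      lt_of_le_of_ne h3 (Ne.symm n3), lt_of_le_of_ne h4 n4⟩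
  obtain ⟨x, -, hxU, hxV⟩ := hpre U V hU hV hSUV ⟨p, hp, hp1, hp2, hp3, hp4⟩ ⟨q, hq, hqo⟩
  obtain ⟨u1, u2, u3, u4⟩ := hxU
  rcases hxV with h | h | h | h
  · exact absurd h (not_lt.2 u1.le)
  · exact absurd h (not_lt.2 u2.le)
  · exact absurd h (not_lt.2 u3.le)
  · exact absurd h (not_lt.2 u4.le)

/-- A map with a fixed point has entropy at least zero. -/
theorem h_nonneg {c b : ℝ} (hfix : 4 * c ≤ (1 + b) ^ 2) : (0 : EReal) ≤ h c b := by
  set x : ℝ := (1 + b + Real.sqrt ((1 + b) ^ 2 - 4 * c)) / 2 with hx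
  have hs : Real.sqrt ((1 + b) ^ 2 - 4 * c) ^ 2 = (1 + b) ^ 2 - 4 * c :=
    Real.sq_sqrt (by linarith)
  have hfp : hen c b (x, x) = (x, x) := by
    simp only [hen]
    ext
    · simp only
      have : x ^ 2 - b * x + c - x = 0 := by
        rw [hx]
        nlinarith
      linarith
    · rfl
  have h1 : MapsTo (hen c b) {(x, x)} {(x, x)} := by
    intro p hp
    rw [mem_singleton_iff] at hp ⊢
    rw [hp, hfp]
  exact (coverEntropy_nonneg (hen c b) (singleton_nonempty (x, x))).trans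
    (le_h c b _ isCompact_singleton h1)

/-- **The end theorem.** -/
theorem not_connected {g1 g2 : ℝ × ℝ → ℝ} (hg1 : Continuous g1) (hg2 : Continuous g2)
    {l1 r1 l2 r2 c b L0 L1 : ℝ} (hb : b ≠ 0) (hfix : 4 * c ≤ (1 + b) ^ 2) (hL0 : 0 < L0)
    (hL01 : L0 < L1) (hL2 : L0 ≤ 2) (hup : h c b ≤ (Real.log L0 : EReal))
    (hp1 : l1 < g1 (c, b)) (hp2 : g1 (c, b) < r1) (hp3 : l2 < g2 (c, b)) (hp4 : g2 (c, b) < r2)
    (hq : g1 (c / b ^ 2, 1 / b) < l1 ∨ r1 < g1 (c / b ^ 2, 1 / b) ∨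
      g2 (c / b ^ 2, 1 / b) < l2 ∨ r2 < g2 (c / b ^ 2, 1 / b))
    (hlow : ∀ p : ℝ × ℝ, l1 ≤ g1 p → g1 p ≤ r1 → l2 ≤ g2 p → g2 p ≤ r2 →
      (g1 p = l1 ∨ g1 p = r1 ∨ g2 p = l2 ∨ g2 p = r2) → (Real.log L1 : EReal) ≤ h p.1 p.2) :
    ∃ α : ℝ, 0 ≤ α ∧ α ≤ Real.log 2 ∧ {p : ℝ × ℝ | h p.1 p.2 = (α : EReal)}.Nonempty ∧
      ¬ IsPreconnected {p : ℝ × ℝ | h p.1 p.2 = (α : EReal)} := by
  have h0 := h_nonneg hfix
  have htop : h c b ≠ ⊤ := fun hh => by
    rw [hh] at hup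
    exact absurd hup (not_le.2 (EReal.coe_lt_top _))
  have hbot : h c b ≠ ⊥ := fun hh => by
    rw [hh] at h0
    exact absurd h0 (not_le.2 (EReal.bot_lt_coe _))
  have hα : ((h c b).toReal : EReal) = h c b := EReal.coe_toReal htop hbot
  have hα0 : 0 ≤ (h c b).toReal := EReal.toReal_nonneg h0
  have hα1 : (h c b).toReal ≤ Real.log L0 := by
    rw [← hα] at hup
    exact_mod_cast hup
  have hmem : ((c, b) : ℝ × ℝ) ∈ {p : ℝ × ℝ | h p.1 p.2 = ((h c b).toReal : EReal)} := by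
    change h c b = _
    exact hα.symm
  refine ⟨(h c b).toReal, hα0, hα1.trans (Real.log_le_log hL0 hL2), ⟨(c, b), hmem⟩, ?_⟩
  refine not_preconnected_of_box hg1 hg2 (p := (c, b)) (q := (c / b ^ 2, 1 / b)) hmem ?_ hp1 hp2
    hp3 hp4 hq ?_
  · change h (c / b ^ 2) (1 / b) = _
    rw [h_sym hb, hα]
  · intro p hp h1 h2 h3 h4
    have hlt : Real.log L0 < Real.log L1 := Real.log_lt_log hL0 hL01
    have hno : ¬ (g1 p = l1 ∨ g1 p = r1 ∨ g2 p = l2 ∨ g2 p = r2) := fun hor => by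
      have h5 := hlow p h1 h2 h3 h4 hor
      have h6 : h p.1 p.2 = ((h c b).toReal : EReal) := hp
      rw [h6] at h5
      have h7 : Real.log L1 ≤ (h c b).toReal := by exact_mod_cast h5
      linarith
    simp only [not_or] at hno
    exact hno

end Pool.Agent.Work.MP_99322d_an.Top
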