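import Mathlib
import Pool.Agent.Work.MP_99322d_an.Params
import Pool.Agent.Work.MP_99322d_an.Top.Final

/-!
# MP_99322d, topology: the end theorem for the parameters of `Params.lean`

Author: helper81.  The hypotheses are exactly: the upper bound at `P0`, a lower bound at `P0` (any
`a0 ≤ h P0`, for instance `a0 = 0`), and the lower bound on the four sides.
-/

set_option autoImplicit false

namespace Pool.Agent.Work.MP_99322d_an.Top

open Set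

/-- The lower bound `a` on the side which starts in `(sc, sb) / 2 ^ 96` and has the direction
`(dc, db) / 2 ^ 96`, for the parameters `t` in `[t0, t1]`. -/
def SideLow (a : ℝ) (sc sb dc db : ℤ) (t0 t1 : ℝ) : Prop :=
  ∀ t : ℝ, t0 ≤ t → t ≤ t1 →
    (a : EReal) ≤ h (((sc : ℝ) + t * (dc : ℝ)) / 2 ^ 96) (((sb : ℝ) + t * (db : ℝ)) / 2 ^ 96)

theorem SideLow.join {a : ℝ} {sc sb dc db : ℤ} {t0 t1 t2 : ℝ} (h1 : SideLow a sc sb dc db t0 t1)
    (h2 : SideLow a sc sb dc db t1 t2) : SideLow a sc sb dc db t0 t2 := by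
  intro t ht0 ht2
  rcases le_total t t1 with ht | ht
  · exact h1 t ht0 ht
  · exact h2 t ht ht2

theorem P0_fix : 4 * P0.1 ≤ (1 + P0.2) ^ 2 := by
  unfold P0
  norm_num [Pc, Pb]

/-- **The end theorem for `Params.lean`.** -/
theorem end_theorem {a0 a1 a2 : ℝ} (h12 : a1 < a2)
    (hlo : (a0 : EReal) ≤ h P0.1 P0.2) (hup : h P0.1 P0.2 ≤ (a1 : EReal))
    (hA0 : SideLow a2 Kc Kb vc vb 0 1) (hA1 : SideLow a2 (Kc + uc) (Kb + ub) vc vb 0 1)
    (hB0 : SideLow a2 Kc Kb uc ub 0 1) (hB1 : SideLow a2 (Kc + vc) (Kb + vb) uc ub 0 1) :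
    ∃ α : ℝ, a0 ≤ α ∧ α ≤ a1 ∧ h P0.1 P0.2 = (α : EReal) ∧
      {p : ℝ × ℝ | h p.1 p.2 = (α : EReal)}.Nonempty ∧
      ¬ IsPreconnected {p : ℝ × ℝ | h p.1 p.2 = (α : EReal)} := by
  have htop : h P0.1 P0.2 ≠ ⊤ := fun hh => by
    rw [hh] at hup
    exact absurd hup (not_le.2 (EReal.coe_lt_top _))
  have hbot : h P0.1 P0.2 ≠ ⊥ := fun hh => by
    rw [hh] at hlo
    exact absurd hlo (not_le.2 (EReal.bot_lt_coe _))
  set α : ℝ := (h P0.1 P0.2).toReal with hαdef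
  have hα : (α : EReal) = h P0.1 P0.2 := EReal.coe_toReal htop hbot
  have hα0 : a0 ≤ α := by
    rw [← hα] at hlo
    exact_mod_cast hlo
  have hα1 : α ≤ a1 := by
    rw [← hα] at hup
    exact_mod_cast hup
  have hmem : P0 ∈ {p : ℝ × ℝ | h p.1 p.2 = (α : EReal)} := hα.symm
  refine ⟨α, hα0, hα1, hα.symm, ⟨P0, hmem⟩, ?_⟩
  obtain ⟨i1, i2, i3, i4⟩ := P0_inside
  refine not_preconnected_of_box continuous_g1 continuous_g2 (l1 := 0) (r1 := 1) (l2 := 0)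
    (r2 := 1) (p := P0) (q := P1) hmem ?_ i1 i2 i3 i4 ?_ ?_
  · change h (P0.1 / P0.2 ^ 2) (1 / P0.2) = _
    rw [h_sym P0_b_pos.ne', hα]
  · by_contra hn
    simp only [not_or, not_lt] at hn
    exact P1_outside hn
  · intro p hp h1 h2 h3 h4
    have hp' : h p.1 p.2 = (α : EReal) := hp
    have key : ¬ (a2 : EReal) ≤ h p.1 p.2 := by
      rw [hp']
      intro h5
      have h6 : a2 ≤ α := by exact_mod_cast h5
      linarith
    have e1 := fst_eq p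
    have e2 := snd_eq p
    refine ⟨fun hg => ?_, fun hg => ?_, fun hg => ?_, fun hg => ?_⟩
    · apply key
      have h5 := hA0 (g2 p) h3 h4
      rw [hg, show (Kc : ℝ) + 0 * (uc : ℝ) + g2 p * (vc : ℝ) = (Kc : ℝ) + g2 p * (vc : ℝ) by ring]
        at e1
      rw [hg, show (Kb : ℝ) + 0 * (ub : ℝ) + g2 p * (vb : ℝ) = (Kb : ℝ) + g2 p * (vb : ℝ) by ring]
        at e2
      rw [e1, e2]
      exact h5
    · apply key
      have h5 := hA1 (g2 p) h3 h4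
      rw [hg, show (Kc : ℝ) + 1 * (uc : ℝ) + g2 p * (vc : ℝ) =
        ((Kc + uc : ℤ) : ℝ) + g2 p * (vc : ℝ) by push_cast; ring] at e1
      rw [hg, show (Kb : ℝ) + 1 * (ub : ℝ) + g2 p * (vb : ℝ) =
        ((Kb + ub : ℤ) : ℝ) + g2 p * (vb : ℝ) by push_cast; ring] at e2
      rw [e1, e2]
      exact h5
    · apply key
      have h5 := hB0 (g1 p) h1 h2
      rw [hg, show (Kc : ℝ) + g1 p * (uc : ℝ) + 0 * (vc : ℝ) = (Kc : ℝ) + g1 p * (uc : ℝ) by ring]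
        at e1
      rw [hg, show (Kb : ℝ) + g1 p * (ub : ℝ) + 0 * (vb : ℝ) = (Kb : ℝ) + g1 p * (ub : ℝ) by ring]
        at e2
      rw [e1, e2]
      exact h5
    · apply key
      have h5 := hB1 (g1 p) h1 h2
      rw [hg, show (Kc : ℝ) + g1 p * (uc : ℝ) + 1 * (vc : ℝ) =
        ((Kc + vc : ℤ) : ℝ) + g1 p * (uc : ℝ) by push_cast; ring] at e1
      rw [hg, show (Kb : ℝ) + g1 p * (ub : ℝ) + 1 * (vb : ℝ) =
        ((Kb + vb : ℤ) : ℝ) + g1 p * (ub : ℝ) by push_cast; ring] at e2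
      rw [e1, e2]
      exact h5

/-- The version without a lower bound at `P0`. -/
theorem end_theorem_zero {L0 L1 : ℝ} (hL0 : 0 < L0) (hL2 : L0 ≤ 2) (h12 : L0 < L1)
    (hup : h P0.1 P0.2 ≤ (Real.log L0 : EReal))
    (hA0 : SideLow (Real.log L1) Kc Kb vc vb 0 1)
    (hA1 : SideLow (Real.log L1) (Kc + uc) (Kb + ub) vc vb 0 1)
    (hB0 : SideLow (Real.log L1) Kc Kb uc ub 0 1)
    (hB1 : SideLow (Real.log L1) (Kc + vc) (Kb + vb) uc ub 0 1) :
    ∃ α : ℝ, 0 ≤ α ∧ α ≤ Real.log 2 ∧ {p : ℝ × ℝ | h p.1 p.2 = (α : EReal)}.Nonempty ∧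
      ¬ IsPreconnected {p : ℝ × ℝ | h p.1 p.2 = (α : EReal)} := by
  obtain ⟨α, h1, h2, -, h3, h4⟩ := end_theorem (a0 := 0) (Real.log_lt_log hL0 h12)
    (by exact_mod_cast h_nonneg P0_fix) hup hA0 hA1 hB0 hB1
  exact ⟨α, h1, h2.trans (Real.log_le_log hL0 hL2), h3, h4⟩

/-- The version with a positive lower bound `log l0` at `P0`. -/
theorem end_theorem_pos {l0 L0 L1 : ℝ} (hL0 : 0 < L0) (h12 : L0 < L1)
    (hlo : (Real.log l0 : EReal) ≤ h P0.1 P0.2)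
    (hup : h P0.1 P0.2 ≤ (Real.log L0 : EReal))
    (hA0 : SideLow (Real.log L1) Kc Kb vc vb 0 1)
    (hA1 : SideLow (Real.log L1) (Kc + uc) (Kb + ub) vc vb 0 1)
    (hB0 : SideLow (Real.log L1) Kc Kb uc ub 0 1)
    (hB1 : SideLow (Real.log L1) (Kc + vc) (Kb + vb) uc ub 0 1) :
    ∃ α : ℝ, Real.log l0 ≤ α ∧ α ≤ Real.log L0 ∧
      {p : ℝ × ℝ | h p.1 p.2 = (α : EReal)}.Nonempty ∧
      ¬ IsPreconnected {p : ℝ × ℝ | h p.1 p.2 = (α : EReal)} := by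
  obtain ⟨α, h1, h2, -, h3, h4⟩ := end_theorem (Real.log_lt_log hL0 h12) hlo hup hA0 hA1 hB0 hB1
  exact ⟨α, h1, h2, h3, h4⟩

end Pool.Agent.Work.MP_99322d_an.Top
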